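import Mathlib
import Pool.Agent.Q330.HP.Link

set_option autoImplicit false

/-!
# MP_9c2350_lc, Q1: a positive Hurwitz product can be found in polynomial time

There is a polynomial-time algorithm `F` which, given the (rational) entries of an `m`-primitive
family of nonnegative matrices, outputs a colour vector `α` (in binary) of length at least one
such that the Hurwitz product with the colour vector `α` is positive.
-/

namespace Pool.Agent.Results.MP_9c2350_lc.PolynomialTime

open Pool.Agent.NPC Pool.Agent.Q330.HP

/-- **Q1 of MP_9c2350_lc has a positive answer.** -/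
theorem result : ∃ F : List (List (List ℚ)) → List ℕ, Poly F ∧
    ∀ (m n : ℕ) (A : Fin m → Matrix (Fin n) (Fin n) ℚ), 0 < n → (∀ c u v, 0 ≤ A c u v) →
      MPrimitive A →
      ∃ α : Fin m → ℕ, F (code A) = List.ofFn α ∧ 1 ≤ ∑ i, α i ∧ Positive (hurwitz A α) :=
  ⟨alg, poly_alg, fun _ _ _ hn hA h => alg_correct hn hA h⟩

end Pool.Agent.Results.MP_9c2350_lc.PolynomialTime
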